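import Pool.Agent.H8.VR.Targets

/-!
# Correct bits exist
-/

set_option autoImplicit false

namespace Pool.Agent.H8.VR

theorem exists_good (φ : C2) (A : Type) (P : ℕ → A → Prop) (R : ℕ → A → A → Prop) :
    ∃ g : A → φ.Bt, φ.Good P R g := by
  induction φ with
  | un i v => exact ⟨fun _ => (), trivial⟩
  | bi i v w => exact ⟨fun _ => (), trivial⟩
  | eq v w => exact ⟨fun _ => (), trivial⟩
  | neg φ ih =>
    obtain ⟨g, hg⟩ := ih
    exact ⟨g, hg⟩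
  | and φ ψ ihφ ihψ =>
    obtain ⟨g, hg⟩ := ihφ
    obtain ⟨g', hg'⟩ := ihψ
    exact ⟨fun a => (g a, g' a), hg, hg'⟩
  | cnt k m r v φ ih =>
    classical
    obtain ⟨g, hg⟩ := ih
    exact ⟨fun a => (decide (k ≤ {b | φ.evA P R g (fun x => if x = v then b else a)}.ncard ∧
      {b | φ.evA P R g (fun x => if x = v then b else a)}.ncard ≡ r [MOD m]), g a), hg,
      fun _ => decide_eq_true_iff⟩

theorem bt_finite (φ : C2) : Finite φ.Bt ∧ Nonempty φ.Bt := by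
  induction φ with
  | un i v => exact ⟨inferInstanceAs (Finite Unit), ⟨()⟩⟩
  | bi i v w => exact ⟨inferInstanceAs (Finite Unit), ⟨()⟩⟩
  | eq v w => exact ⟨inferInstanceAs (Finite Unit), ⟨()⟩⟩
  | neg φ ih => exact ih
  | and φ ψ ihφ ihψ =>
    obtain ⟨h1, ⟨x⟩⟩ := ihφ
    obtain ⟨h2, ⟨y⟩⟩ := ihψ
    exact ⟨inferInstanceAs (Finite (φ.Bt × ψ.Bt)), ⟨((x, y) : φ.Bt × ψ.Bt)⟩⟩
  | cnt k m r v φ ih =>
    obtain ⟨h1, ⟨x⟩⟩ := ih
    exact ⟨inferInstanceAs (Finite (Bool × φ.Bt)), ⟨((true, x) : Bool × φ.Bt)⟩⟩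

theorem pf_GE : T_GE := fun φ => ⟨exists_good φ, bt_finite φ⟩

end Pool.Agent.H8.VR
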